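import Mathlib

open Finset MvPolynomial

namespace H11.RSum

/-- Every `A ⊆ F_2^n` with `|A| ≥ m` forces `p(0) = 0` for every `p` of degree at most `d`
vanishing on the restricted sumset of `A`. -/
def Forces (n d m : ℕ) : Prop :=
  ∀ A : Finset (Fin n → ZMod 2), m ≤ A.card → ∀ p : MvPolynomial (Fin n) (ZMod 2),
    p.totalDegree ≤ d → (∀ a ∈ A, ∀ b ∈ A, a ≠ b → eval (a + b) p = 0) → eval 0 p = 0

/-- The threshold `N(n, d)`. -/
noncomputable def N (n d : ℕ) : ℕ := sInf {m | Forces n d m}

/-- `B n k = C(n,0) + ... + C(n,k)`. -/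
def B (n k : ℕ) : ℕ := ∑ i ∈ range (k + 1), n.choose i

def P (n k : ℕ) : Finset (Finset (Fin n)) := univ.filter fun S => S.card ≤ k

theorem card_P (n k : ℕ) : (P n k).card = B n k := by
  induction k with
  | zero =>
    have : P n 0 = {∅} := by ext S; simp [P]
    simp [this, B]
  | succ k ih =>
    have h : P n (k + 1) = P n k ∪ powersetCard (k + 1) univ := by
      ext S; simp [P, mem_powersetCard]; omega
    have hd : Disjoint (P n k) (powersetCard (k + 1) univ) := by
      rw [disjoint_left]; intro S h1 h2; simp [P, mem_powersetCard] at h1 h2; omega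
    rw [h, card_union_of_disjoint hd, ih, card_powersetCard, B, B, sum_range_succ _ (k + 1)]
    simp

def chi {n : ℕ} (S : Finset (Fin n)) (x : Fin n → ZMod 2) : ZMod 2 := ∏ i ∈ S, x i

def Dec (n k k' : ℕ) (F : (Fin n → ZMod 2) → (Fin n → ZMod 2) → ZMod 2) : Prop :=
  ∃ g h : Finset (Fin n) → (Fin n → ZMod 2) → ZMod 2, ∀ x y,
    F x y = ∑ S ∈ P n k, chi S x * g S y + ∑ S ∈ P n k', h S x * chi S y

theorem Dec.sum {n k k' : ℕ} {ι : Type} (s : Finset ι)
    (F : ι → (Fin n → ZMod 2) → (Fin n → ZMod 2) → ZMod 2) (h : ∀ i ∈ s, Dec n k k' (F i)) :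
    Dec n k k' fun x y => ∑ i ∈ s, F i x y := by
  classical
  induction s using Finset.induction_on with
  | empty => exact ⟨0, 0, by simp⟩
  | insert a s ha ih =>
    obtain ⟨g, h1, e1⟩ := h a (mem_insert_self _ _)
    obtain ⟨g', h1', e2⟩ := ih fun i hi => h i (mem_insert_of_mem hi)
    refine ⟨g + g', h1 + h1', fun x y => ?_⟩
    have e2' := e2 x y
    simp only at e2'
    simp only [sum_insert ha, e1, e2', Pi.add_apply, mul_add, add_mul, sum_add_distrib]
    ring

theorem Dec.term {n k k' : ℕ} (c : ZMod 2) (S T : Finset (Fin n))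
    (h : S.card + T.card ≤ k + k' + 1) : Dec n k k' fun x y => c * (chi S x * chi T y) := by
  classical
  by_cases hS : S.card ≤ k
  · refine ⟨fun U y => if U = S then c * chi T y else 0, 0, fun x y => ?_⟩
    have : S ∈ P n k := by simp [P, hS]
    simp [this]
    ring
  · refine ⟨0, fun U x => if U = T then c * chi S x else 0, fun x y => ?_⟩
    have : T ∈ P n k' := by simp [P]; omega
    simp [this]
    ring

theorem zpow (t : ZMod 2) (e : ℕ) (he : e ≠ 0) : t ^ e = t := by
  have : t = 0 ∨ t = 1 := by revert t; decide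
  rcases this with rfl | rfl <;> simp [he]

theorem dec_eval {n k k' : ℕ} (p : MvPolynomial (Fin n) (ZMod 2))
    (hp : p.totalDegree ≤ k + k' + 1) : Dec n k k' fun x y => eval (x + y) p := by
  classical
  have key : (fun x y => eval (x + y) p) = fun x y => ∑ m ∈ p.support,
      ∑ S ∈ m.support.powerset, coeff m p * (chi S x * chi (m.support \ S) y) := by
    funext x y
    rw [eval_eq]
    refine sum_congr rfl fun m _ => ?_
    rw [← mul_sum]
    congr 1
    rw [prod_congr rfl fun i hi => zpow ((x + y) i) (m i) (Finsupp.mem_support_iff.1 hi)]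
    simp only [Pi.add_apply]
    rw [prod_add]
    rfl
  rw [key]
  refine Dec.sum _ (fun m x y => ∑ S ∈ m.support.powerset,
    coeff m p * (chi S x * chi (m.support \ S) y)) fun m hm => ?_
  refine Dec.sum _ (fun S x y => coeff m p * (chi S x * chi (m.support \ S) y)) fun S hS => ?_
  apply Dec.term
  have h1 : m.support.card ≤ p.totalDegree := by
    refine le_trans ?_ (le_totalDegree hm)
    rw [Finsupp.sum, card_eq_sum_ones]
    exact sum_le_sum fun i hi => Nat.one_le_iff_ne_zero.2 (Finsupp.mem_support_iff.1 hi)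
  have h2 := card_sdiff_add_card_eq_card (mem_powerset.1 hS)
  omega

theorem upper {n d k k' : ℕ} (hd : d ≤ k + k' + 1) : Forces n d (B n k + B n k' + 1) := by
  classical
  intro A hA p hp hv
  by_contra h0
  have h1 : eval 0 p = 1 := by
    have : ∀ t : ZMod 2, t ≠ 0 → t = 1 := by decide
    exact this _ h0
  obtain ⟨g, h, e⟩ := dec_eval (k := k) (k' := k') p (hp.trans hd)
  let U : Matrix A (P n k ⊕ P n k') (ZMod 2) :=
    fun a => Sum.elim (fun S => chi S.1 a.1) (fun S => h S.1 a.1)
  let V : Matrix (P n k ⊕ P n k') A (ZMod 2) :=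
    fun s b => Sum.elim (fun S => g S.1 b.1) (fun S => chi S.1 b.1) s
  have hUV : U * V = 1 := by
    ext a b
    rw [Matrix.mul_apply, Fintype.sum_sum_type]
    simp only [U, V, Sum.elim_inl, Sum.elim_inr]
    rw [sum_coe_sort (P n k) (fun S => chi S a.1 * g S b.1),
      sum_coe_sort (P n k') (fun S => h S a.1 * chi S b.1), ← e a.1 b.1]
    by_cases hab : a = b
    · subst hab
      have : a.1 + a.1 = 0 := by
        funext i
        have : ∀ t : ZMod 2, t + t = 0 := by decide
        exact this _
      simp only [this, h1, Matrix.one_apply_eq]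
    · rw [Matrix.one_apply_ne hab]
      exact hv _ a.2 _ b.2 fun h => hab (Subtype.ext h)
  have r1 : (U * V).rank = A.card := by rw [hUV, Matrix.rank_one]; simp
  have r2 : (U * V).rank ≤ Fintype.card (P n k ⊕ P n k') :=
    (Matrix.rank_mul_le_left U V).trans (Matrix.rank_le_card_width U)
  rw [Fintype.card_sum, Fintype.card_coe, Fintype.card_coe, card_P, card_P] at r2
  omega

noncomputable def pF {n : ℕ} (F : Finset (Finset (Fin n))) : MvPolynomial (Fin n) (ZMod 2) :=
  ∑ T ∈ F, ∏ i ∈ T, X i

theorem pF_deg {n d : ℕ} (F : Finset (Finset (Fin n))) (h : ∀ T ∈ F, T.card ≤ d) :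
    (pF F).totalDegree ≤ d := by
  refine (totalDegree_finset_sum _ _).trans (Finset.sup_le fun T hT => ?_)
  refine (totalDegree_finset_prod _ _).trans (le_trans ?_ (h T hT))
  simp [totalDegree_X]

theorem pF_eval {n : ℕ} (F : Finset (Finset (Fin n))) (x : Fin n → ZMod 2)
    (h : ∀ T : Finset (Fin n), (∀ i ∈ T, x i ≠ 0) → T ∈ F) :
    eval x (pF F) = ∏ i, (1 + x i) := by
  classical
  rw [prod_one_add, pF, map_sum]
  simp only [map_prod, eval_X]
  refine sum_subset (fun T _ => by simp) fun T _ hT => ?_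
  by_contra hne
  exact hT (h T fun i hi h0 => hne (prod_eq_zero hi h0))

theorem lower {n d : ℕ} (A : Finset (Fin n → ZMod 2)) (F : Finset (Finset (Fin n)))
    (hF : ∀ T ∈ F, T.card ≤ d) (h0 : ∅ ∈ F)
    (h : ∀ a ∈ A, ∀ b ∈ A, ∀ T : Finset (Fin n), (∀ i ∈ T, (a + b) i ≠ 0) → T ∈ F) :
    A.card < N n d := by
  have hne : {m | Forces n d m}.Nonempty := ⟨_, upper (k := d) (k' := d) (by omega)⟩
  have hm := Nat.sInf_mem hne
  by_contra hlt
  have h1 := hm A (not_lt.1 hlt) (pF F) (pF_deg F hF) (by
    intro a ha b hb hab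
    rw [pF_eval F _ (h a ha b hb)]
    obtain ⟨i, hi⟩ := Function.ne_iff.1 hab
    refine prod_eq_zero (mem_univ i) ?_
    have : ∀ s t : ZMod 2, s ≠ t → 1 + (s + t) = 0 := by decide
    exact this _ _ hi)
  rw [pF_eval F 0 (fun T hT => by
    rcases T.eq_empty_or_nonempty with rfl | ⟨i, hi⟩
    · exact h0
    · exact absurd rfl (hT i hi))] at h1
  simp at h1

def ind {n : ℕ} (S : Finset (Fin n)) : Fin n → ZMod 2 := fun i => if i ∈ S then 1 else 0

theorem ind_inj {n : ℕ} : Function.Injective (ind (n := n)) := by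
  intro S S' h
  ext i
  have := congrFun h i
  simp only [ind] at this
  by_cases h1 : i ∈ S <;> by_cases h2 : i ∈ S' <;> simp_all

theorem lower_even (n d : ℕ) : B n (d / 2) < N n d := by
  classical
  have := lower (d := d) ((P n (d / 2)).image ind) (P n d) (fun T hT => by simpa [P] using hT)
    (by simp [P]) (by
      intro a ha b hb T hT
      obtain ⟨S, hS, rfl⟩ := mem_image.1 ha
      obtain ⟨S', hS', rfl⟩ := mem_image.1 hb
      have hsub : T ⊆ S ∪ S' := by
        intro i hi
        by_contra hn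
        rw [mem_union, not_or] at hn
        exact hT i hi (by simp [ind, hn.1, hn.2])
      have h1 := (card_le_card hsub).trans (card_union_le _ _)
      simp only [P, mem_filter, mem_univ, true_and] at hS hS' ⊢
      omega)
  rwa [card_image_of_injective _ ind_inj, card_P] at this

theorem lower_odd (n k : ℕ) : 2 * B n k < N (n + 1) (2 * k + 1) := by
  classical
  let φ : ZMod 2 × Finset (Fin n) → (Fin (n + 1) → ZMod 2) := fun q => Fin.cons q.1 (ind q.2)
  have hφ : Function.Injective φ := by
    rintro ⟨s, S⟩ ⟨s', S'⟩ h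
    have := Fin.cons_injective2 h
    rw [Prod.mk.injEq]
    exact ⟨this.1, ind_inj this.2⟩
  have := lower (d := 2 * k + 1) ((univ ×ˢ P n k).image φ) (P (n + 1) (2 * k + 1))
    (fun T hT => by simpa [P] using hT) (by simp [P]) (by
      intro a ha b hb T hT
      obtain ⟨⟨s, S⟩, hS, rfl⟩ := mem_image.1 ha
      obtain ⟨⟨s', S'⟩, hS', rfl⟩ := mem_image.1 hb
      have hsub : T ⊆ insert 0 ((S ∪ S').image Fin.succ) := by
        intro i hi
        induction i using Fin.cases with
        | zero => simp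
        | succ j =>
          refine mem_insert_of_mem (mem_image_of_mem _ ?_)
          by_contra hn
          rw [mem_union, not_or] at hn
          exact hT _ hi (by simp [φ, ind, hn.1, hn.2])
      have h1 := (card_le_card hsub).trans (card_insert_le _ _)
      have h2 : ((S ∪ S').image Fin.succ).card ≤ S.card + S'.card :=
        card_image_le.trans (card_union_le _ _)
      simp only [P, mem_product, mem_filter, mem_univ, true_and] at hS hS' ⊢
      omega)
  rw [card_image_of_injective _ hφ, card_product, card_P] at this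
  simpa using this

end H11.RSum

namespace Pool.Agent.Results.MP_da15bd_co.Order

open H11.RSum

theorem result :
    (∀ n k : ℕ, B n (k + 1) < N n (2 * k + 2) ∧ N n (2 * k + 2) ≤ B n (k + 1) + B n k + 1) ∧
    (∀ n k : ℕ, 2 * B n k < N (n + 1) (2 * k + 1) ∧ N (n + 1) (2 * k + 1) ≤ 2 * B (n + 1) k + 1) ∧
    (∀ n d : ℕ, B n (d / 2) < N n d ∧ N n d ≤ 2 * B n (d / 2) + 1) := by
  refine ⟨fun n k => ⟨?_, Nat.sInf_le (upper (by omega))⟩, fun n k => ⟨lower_odd n k, ?_⟩,
    fun n d => ⟨lower_even n d, ?_⟩⟩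
  · have := lower_even n (2 * k + 2)
    rwa [show (2 * k + 2) / 2 = k + 1 by omega] at this
  · rw [two_mul (B (n + 1) k)]
    exact Nat.sInf_le (upper (by omega))
  · rw [two_mul (B n (d / 2))]
    exact Nat.sInf_le (upper (by omega))

end Pool.Agent.Results.MP_da15bd_co.Order
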